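import Pool.Agent.Helper74.DIH.Goals

set_option autoImplicit false

namespace Pool.Agent.Helper85.DIH

open Pool.Agent.Helper52.Wq2 Pool.Agent.Helper61.NW

universe u

theorem h_one {Γ : Type u} [Group Γ] {ε : Γ →* ℤˣ} {h : Γ → ℤ} (P : Dh ε h) : h 1 = 0 := by
  have h1 := P.coc 1 1
  rw [mul_one, map_one, Units.val_one, one_mul] at h1
  linarith

theorem h_inv {Γ : Type u} [Group Γ] {ε : Γ →* ℤˣ} {h : Γ → ℤ} (P : Dh ε h) (x : Γ) :
    (ε x : ℤ) * h x⁻¹ = - h x := by
  have h1 := P.coc x x⁻¹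
  rw [mul_inv_cancel, h_one P] at h1
  linarith

theorem d3 : Pool.Agent.Helper74.DIH.D3Stmt.{u} := by
  intro Γ _ ε h S P hS hfin
  have hpm : ∀ x : Γ, (ε x : ℤ) = 1 ∨ (ε x : ℤ) = -1 := by
    intro x
    rcases Int.units_eq_one_or (ε x) with e | e
    · left; rw [e]; rfl
    · right; rw [e]; rfl
  obtain ⟨u₀, hu₀S, hu₀⟩ : ∃ u ∈ S, ε u = -1 := by
    by_contra hcon
    push Not at hcon
    have h1 : ∀ u ∈ S, u ∈ ε.ker := by
      intro u hu
      rcases Int.units_eq_one_or (ε u) with e | e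
      · exact e
      · exact absurd e (hcon u hu)
    have h2 : Subgroup.closure S ≤ ε.ker := (Subgroup.closure_le _).2 h1
    obtain ⟨u, hu⟩ := P.neg
    have h3 : ε u = 1 := h2 (by rw [hS.1]; trivial)
    rw [hu] at h3
    exact absurd h3 (by decide)
  have hf1 : {u | u ∈ S ∧ ε u = -1}.Finite := hfin.subset fun u hu => hu.1
  have hf2 : {u | u ∈ S ∧ ε u = 1}.Finite := hfin.subset fun u hu => hu.1
  obtain ⟨t, ⟨htS, ht⟩, htm⟩ := Set.exists_max_image _ h hf1 ⟨u₀, hu₀S, hu₀⟩
  obtain ⟨r, ⟨hrS, hr⟩, hrm⟩ := Set.exists_min_image _ h hf1 ⟨u₀, hu₀S, hu₀⟩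
  have htr : h r ≤ h t := hrm t ⟨htS, ht⟩
  by_cases hA : ∃ s ∈ S, ε s = 1 ∧ 2 * (h t - h r) < 4 * |h s|
  · obtain ⟨s₀, hs₀S, hs₀, hs₀h⟩ := hA
    obtain ⟨s, ⟨hsS, hs⟩, hsm⟩ := Set.exists_max_image _ (fun u => |h u|) hf2 ⟨s₀, hs₀S, hs₀⟩
    have hsm' : ∀ u ∈ S, ε u = 1 → |h u| ≤ |h s| := fun u h1 h2 => hsm u ⟨h1, h2⟩
    have hs0 : 2 * (h t - h r) < 4 * |h s| := by linarith [hsm' s₀ hs₀S hs₀]
    obtain ⟨p, hpS, hp, hph⟩ : ∃ p ∈ S, ε p = 1 ∧ h p = |h s| := by
      rcases le_total 0 (h s) with h1 | h1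
      · exact ⟨s, hsS, hs, (abs_of_nonneg h1).symm⟩
      · refine ⟨s⁻¹, hS.2.1 s hsS, by rw [map_inv, hs, inv_one], ?_⟩
        have := h_inv P s
        rw [hs, Units.val_one, one_mul] at this
        rw [this, abs_of_nonpos h1]
    have hq := h_inv P p
    rw [hp, Units.val_one, one_mul] at hq
    refine ⟨h t + h r, 4 * |h s|, p, p⁻¹, by linarith, hpS, hS.2.1 p hpS, Or.inl ⟨hp, rfl⟩, ?_, ?_,
      ?_⟩
    · rw [hp, Units.val_one, hph]; ring
    · rw [map_inv, hp, inv_one, Units.val_one, hq, hph]; ring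
    · intro u hu
      rcases Int.units_eq_one_or (ε u) with e | e
      · have h1 := hsm' u hu e
        rw [e, Units.val_one]
        have h2 : 4 * h u + (1 - 1) * (h t + h r) = 4 * h u := by ring
        rw [h2, abs_mul]
        norm_num
        exact h1
      · have h1 := htm u ⟨hu, e⟩
        have h2 := hrm u ⟨hu, e⟩
        rw [e, Units.val_neg, Units.val_one, abs_le]
        constructor <;> linarith
  · push Not at hA
    have hb : ∀ u ∈ S, |4 * h u + ((ε u : ℤ) - 1) * (h t + h r)| ≤ 2 * (h t - h r) := by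
      intro u hu
      rcases Int.units_eq_one_or (ε u) with e | e
      · have h1 := hA u hu e
        rw [e, Units.val_one]
        have h2 : 4 * h u + (1 - 1) * (h t + h r) = 4 * h u := by ring
        rw [h2, abs_mul]
        norm_num
        linarith
      · have h1 := htm u ⟨hu, e⟩
        have h2 := hrm u ⟨hu, e⟩
        rw [e, Units.val_neg, Units.val_one, abs_le]
        constructor <;> linarith
    rcases lt_or_ge 0 (2 * (h t - h r)) with hpos | hneg
    · refine ⟨h t + h r, 2 * (h t - h r), t, r, hpos, htS, hrS, Or.inr ⟨ht, hr⟩, ?_, ?_, hb⟩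
      · rw [ht, Units.val_neg, Units.val_one]; ring
      · rw [hr, Units.val_neg, Units.val_one]; ring
    · exfalso
      have h0 : ∀ u ∈ S, 4 * h u + ((ε u : ℤ) - 1) * (h t + h r) = 0 := by
        intro u hu
        have := hb u hu
        exact abs_eq_zero.1 (le_antisymm (by linarith) (abs_nonneg _))
      have key : ∀ x ∈ Subgroup.closure S, 4 * h x + ((ε x : ℤ) - 1) * (h t + h r) = 0 := by
        intro x hx
        induction hx using Subgroup.closure_induction with
        | mem x hx => exact h0 x hx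
        | one => rw [h_one P, map_one, Units.val_one]; ring
        | mul x y _ _ hx hy =>
          rw [P.coc, map_mul, Units.val_mul]
          rcases hpm x with e | e <;> rcases hpm y with e' | e' <;> rw [e] at hx ⊢ <;>
            rw [e'] at hy ⊢ <;> linarith
        | inv x _ hx =>
          have h1 := h_inv P x
          have h2 : ((ε x⁻¹ : ℤˣ) : ℤ) = (ε x : ℤ) := by
            rw [map_inv]
            rcases Int.units_eq_one_or (ε x) with e | e <;> rw [e] <;> rfl
          rw [h2]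
          rcases hpm x with e | e <;> rw [e] at hx h1 ⊢ <;> linarith
      obtain ⟨g, hg, hg'⟩ := P.unb
      have h1 := key g (by rw [hS.1]; trivial)
      rw [hg, Units.val_one] at h1
      exact hg' (by linarith)

end Pool.Agent.Helper85.DIH
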